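import Pool.Agent.LibPS.Main

set_option autoImplicit false

namespace Pool.Agent.Results.MP_10bfcf_co.Classification

open PatSturm

/-- Words `f : ℕ → Bool` with pattern complexity `2 n` for all `n ≥ 1` are exactly the words of
rotation type, of Toeplitz type, or of sparse type. -/
theorem result (f : ℕ → Bool) :
    (∀ n : ℕ, 1 ≤ n → PC f n = 2 * n) ↔ RotType f ∨ ToepType f ∨ SparseType f :=
  classification f

end Pool.Agent.Results.MP_10bfcf_co.Classification
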